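import Pool.Agent.Lib.MP_c08332_co.Zig

/-! Sets with four missing residues. -/

namespace Pool.Agent.Lib.MP_c08332_co

open Finset

variable {p : ℕ}

theorem cast_inj [Fact p.Prime] {c : ZMod p} (hc : c ≠ 0) {s t : ℕ} (hs : s < p) (ht : t < p)
    (h : c * (s : ZMod p) = c * (t : ZMod p)) : s = t := by
  have := (ZMod.natCast_eq_natCast_iff' _ _ _).1 (mul_left_cancel₀ hc h)
  rwa [Nat.mod_eq_of_lt hs, Nat.mod_eq_of_lt ht] at this

theorem pth_of_vert [Fact p.Prime] {A : Finset (ZMod p)} {c : ZMod p} (hc : c ≠ 0) (W G : ℕ → ℕ)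
    (h0 : W 0 = 0) (hW : ∀ j ≤ A.card, W j < p) (hG : ∀ j < A.card, G j < p)
    (hs : ∀ j < A.card, W j + G j = W (j + 1) ∨ W j + G j = W (j + 1) + p)
    (iW : ∀ j ≤ A.card, ∀ l ≤ A.card, W j = W l → j = l)
    (iG : ∀ j < A.card, ∀ l < A.card, G j = G l → j = l)
    (hA : ∀ j < A.card, c * (G j : ZMod p) ∈ A) : Pth A := by
  refine ⟨fun j => c * (G j : ZMod p), fun j hj l hl h =>
    iG j hj l hl (cast_inj hc (hG j hj) (hG l hl) h), hA, fun j hj l hl h => ?_⟩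
  have key : ∀ j ≤ A.card, ∑ i ∈ range j, c * (G i : ZMod p) = c * (W j : ZMod p) := by
    intro j
    induction j with
    | zero => simp [h0]
    | succ j ih =>
      intro hj
      rw [sum_range_succ, ih (by omega), ← mul_add, ← Nat.cast_add]
      rcases hs j hj with e | e <;> simp [e]
  simp only [key j hj, key l hl] at h
  exact iW j hj l hl (cast_inj hc (hW j hj) (hW l hl) h)

/-- pairs `y i, 1 - y i`, the single step `1` at index `i₀`, the single step `y m` at the end -/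
theorem pth_of_pairs [Fact p.Prime] {A : Finset (ZMod p)} {c : ZMod p} (hc : c ≠ 0) {m i₀ : ℕ}
    (hm : A.card = 2 * m) (hi : i₀ < m) (y : ℕ → ℕ)
    (h1 : ∀ i ≤ m, i ≠ i₀ → 2 ≤ y i ∧ m < i + y i ∧ i + y i < p)
    (h2 : ∀ i ≤ m, ∀ j ≤ m, i ≠ i₀ → j ≠ i₀ → i ≠ j → i + y i ≠ j + y j ∧ y i ≠ y j)
    (h3 : ∀ i < m, ∀ j ≤ m, i ≠ i₀ → j ≠ i₀ → y i + y j ≠ p + 1)
    (h4 : ∀ i ≤ m, i ≠ i₀ → c * (y i : ZMod p) ∈ A ∧ c * ((p + 1 - y i : ℕ) : ZMod p) ∈ A)
    (h5 : c ∈ A) : Pth A := by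
  let ι : ℕ → ℕ := fun j => if j < 2 * i₀ then j / 2 else (j + 1) / 2
  let fst : ℕ → Prop := fun j => (j < 2 * i₀ ∧ j % 2 = 0) ∨ (2 * i₀ < j ∧ j % 2 = 1)
  let W : ℕ → ℕ := fun j => if (j ≤ 2 * i₀ ∧ j % 2 = 0) ∨ (2 * i₀ < j ∧ j % 2 = 1) then (j + 1) / 2
    else j / 2 + y (j / 2)
  let G : ℕ → ℕ := fun j => if j = 2 * i₀ then 1 else if fst j then y (ι j) else p + 1 - y (ι j)
  have hι : ∀ j < 2 * m, j ≠ 2 * i₀ → ι j ≤ m ∧ ι j ≠ i₀ ∧ (¬ fst j → ι j < m) := fun j hj h => by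
    simp only [ι, fst]
    split_ifs <;> omega
  have hp : m < p := by
    have := h1 m le_rfl (by omega)
    omega
  refine pth_of_vert hc W G (by simp [W]) (fun j hj => ?_) (fun j hj => ?_) (fun j hj => ?_)
    (fun j hj l hl => ?_) (fun j hj l hl => ?_) (fun j hj => ?_)
  · simp only [W]
    split_ifs with h
    · omega
    · exact (h1 (j / 2) (by omega) (by omega)).2.2
  · simp only [G]
    split_ifs with h h'
    · omega
    · have := hι j (by omega) h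
      have := h1 (ι j) this.1 this.2.1
      omega
    · have := hι j (by omega) h
      have := h1 (ι j) this.1 this.2.1
      omega
  · by_cases h : j = 2 * i₀
    · simp only [W, G, if_pos h]
      rw [if_pos (by omega), if_pos (by omega)]
      omega
    by_cases h' : fst j
    · simp only [W, G, if_neg h, if_pos h']
      simp only [fst] at h'
      rw [if_pos (by omega), if_neg (by omega), show ι j = (j + 1) / 2 by
        simp only [ι]; split_ifs <;> omega]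
      exact Or.inl rfl
    · have := hι j (by omega) h
      have := h1 (ι j) this.1 this.2.1
      simp only [W, G, if_neg h, if_neg h']
      simp only [fst] at h'
      have e : ι j = j / 2 := by simp only [ι]; split_ifs <;> omega
      rw [e] at this
      rw [if_neg (by omega), if_pos (by omega), e]
      omega
  · simp only [W]
    split_ifs with h h' h'
    · omega
    · have := h1 (l / 2) (by omega) (by omega)
      omega
    · have := h1 (j / 2) (by omega) (by omega)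
      omega
    · intro e
      by_contra hne
      exact (h2 (j / 2) (by omega) (l / 2) (by omega) (by omega) (by omega) (by omega)).1 e
  · by_cases h : j = 2 * i₀ <;> by_cases h' : l = 2 * i₀
    · omega
    · have := hι l (by omega) h'
      have := h1 (ι l) this.1 this.2.1
      simp only [G, if_pos h, if_neg h']
      split_ifs <;> omega
    · have := hι j (by omega) h
      have := h1 (ι j) this.1 this.2.1
      simp only [G, if_pos h', if_neg h]
      split_ifs <;> omega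
    · obtain ⟨a1, a2, a3⟩ := hι j (by omega) h
      obtain ⟨b1, b2, b3⟩ := hι l (by omega) h'
      have a4 := h1 (ι j) a1 a2
      have b4 := h1 (ι l) b1 b2
      have k : (fst j ↔ fst l) → y (ι j) = y (ι l) → j = l := fun k e => by
        by_contra hne
        refine (h2 _ a1 _ b1 a2 b2 ?_).2 e
        simp only [ι, fst] at k ⊢
        split_ifs <;> omega
      simp only [G, if_neg h', if_neg h]
      split_ifs with f1 f2 f2
      · exact k (iff_of_true f1 f2)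
      · have := h3 _ (b3 f2) _ a1 b2 a2
        omega
      · have := h3 _ (a3 f1) _ b1 a2 b2
        omega
      · exact fun e => k (iff_of_false f1 f2) (by omega)
  · simp only [G]
    split_ifs with h h'
    · simpa using h5
    · have := hι j (by omega) h
      exact (h4 _ this.1 this.2.1).1
    · have := hι j (by omega) h
      exact (h4 _ this.1 this.2.1).2

theorem exists_rank {r x₀ a : ℕ} (k0 : 1 ≤ x₀) (k1 : x₀ + 2 ≤ r) (ha : 2 * a + 3 ≤ r)
    (ha' : r ≤ 2 * a + 4) {e : ℕ → ℕ} (e1 : ∀ j, j + 1 ≤ e j ∧ e j ≤ j + 3)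
    (e2 : ∀ j l, j ≤ l → e j + l ≤ e l + j) (e3 : ∀ j, j + 1 < x₀ → e j = j + 1)
    (e4 : ∀ j, x₀ ≤ j + 1 → j + 2 ≤ e j) : ∃ (i₀ : ℕ) (ρ : ℕ → ℕ), i₀ ≤ a ∧
      (∀ i ≤ a, i ≠ i₀ → ρ i < a ∧ i < e (2 * ρ i + 1) ∧ e (2 * ρ i + 1) ≠ i + 2 ∧
        2 * e (2 * ρ i + 1) ≤ 2 * i + r + 3) ∧
      ∀ i j, i < j → j ≤ a → i ≠ i₀ → j ≠ i₀ →
        ρ i ≠ ρ j ∧ e (2 * ρ i + 1) + j ≠ e (2 * ρ j + 1) + i := by
  obtain ⟨s, i₀, hi⟩ : ∃ s i₀, (4 * s + 1 ≤ x₀ ∧ x₀ ≤ 4 * s + 2 ∧ i₀ = a) ∨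
      (4 * s + 3 ≤ x₀ ∧ x₀ ≤ 4 * s + 4 ∧ i₀ = 2 * s) := by
    by_cases h : (x₀ - 1) % 4 < 2
    · exact ⟨(x₀ - 1) / 4, a, Or.inl (by omega)⟩
    · exact ⟨(x₀ - 1) / 4, 2 * ((x₀ - 1) / 4), Or.inr (by omega)⟩
  obtain ⟨ρ, hρ⟩ : ∃ ρ : ℕ → ℕ, ∀ i, (i < 2 * s ∧ i % 2 = 0 ∧ ρ i = i + 1) ∨
      (i < 2 * s ∧ i % 2 = 1 ∧ ρ i + 1 = i) ∨ (2 * s ≤ i ∧ i ≤ i₀ ∧ ρ i = i) ∨
      (2 * s ≤ i ∧ i₀ < i ∧ ρ i + 1 = i) := by
    refine ⟨fun i => if i < 2 * s then (if i % 2 = 0 then i + 1 else i - 1) else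
      if i ≤ i₀ then i else i - 1, fun i => ?_⟩
    simp only
    split_ifs <;> omega
  refine ⟨i₀, ρ, by omega, fun i h1 h2 => ?_, fun i j h1 h2 h3 h4 => ?_⟩
  · have := e1 (2 * ρ i + 1)
    have := e3 (2 * ρ i + 1)
    have := e4 (2 * ρ i + 1)
    rcases hρ i with h | h | h | h <;> omega
  · have a3 := e3 (2 * ρ i + 1)
    have a4 := e3 (2 * ρ j + 1)
    have a5 := e4 (2 * ρ j + 1)
    have a6 := e2 (2 * ρ i + 1) (2 * ρ j + 1)
    rcases hρ i with h | h | h | h <;> rcases hρ j with h' | h' | h' | h' <;> omega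

theorem pth_big [Fact p.Prime] {A : Finset (ZMod p)} {c : ZMod p} (hc : c ≠ 0) {r x₀ x₁ : ℕ}
    (hp : p = 2 * r + 1) (k0 : 1 ≤ x₀) (k1 : x₀ < x₁) (k2 : x₁ < r) (hm : A.card + 5 = p)
    (hA : ∀ t : ℕ, 1 ≤ t → t < p → t ≠ x₀ + 1 → t + x₀ ≠ p → t ≠ x₁ + 1 → t + x₁ ≠ p →
      c * (t : ZMod p) ∈ A) : Pth A := by
  obtain ⟨e, e1, e2, e3, e4, e5⟩ : ∃ e : ℕ → ℕ, (∀ j, j + 1 ≤ e j ∧ e j ≤ j + 3) ∧
      (∀ j l, j ≤ l → e j + l ≤ e l + j) ∧ (∀ j, j + 1 < x₀ → e j = j + 1) ∧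
      (∀ j, x₀ ≤ j + 1 → j + 2 ≤ e j) ∧ ∀ j, e j ≠ x₀ ∧ e j ≠ x₁ := by
    refine ⟨fun j => if j + 1 < x₀ then j + 1 else if j + 2 < x₁ then j + 2 else j + 3,
      fun j => ?_, fun j l h => ?_, fun j h => ?_, fun j h => ?_, fun j => ?_⟩ <;>
      simp only <;> split_ifs <;> omega
  obtain ⟨a, ha, ha'⟩ : ∃ a, 2 * a + 3 ≤ r ∧ r ≤ 2 * a + 4 := ⟨(r - 3) / 2, by omega⟩
  obtain ⟨i₀, ρ, hi, r1, r2⟩ := exists_rank k0 (by omega) ha ha' e1 e2 e3 e4
  obtain ⟨m, rfl⟩ : ∃ m, r = m + 2 := ⟨r - 2, by omega⟩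
  obtain ⟨y, hy⟩ : ∃ y : ℕ → ℕ, ∀ i ≤ m, i ≠ i₀ → (i ≤ a ∧ y i + e (2 * ρ i + 1) = p) ∨
      (∃ t, a < i ∧ t + i + 1 = m ∧ y i = e (2 * t) + 1) ∨ (i = m ∧ y i = m + 3) := by
    refine ⟨fun i => if i ≤ a then p - e (2 * ρ i + 1) else
      if i < m then e (2 * (m - 1 - i)) + 1 else m + 3, fun i h1 h2 => ?_⟩
    simp only
    split_ifs with h3 h4
    · have := r1 i h3 h2
      have := e1 (2 * ρ i + 1)
      exact Or.inl (by omega)
    · exact Or.inr (Or.inl ⟨m - 1 - i, by omega, by omega, rfl⟩)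
    · exact Or.inr (Or.inr ⟨by omega, rfl⟩)
  have h1 : ∀ i ≤ m, i ≠ i₀ → 2 ≤ y i ∧ m < i + y i ∧ i + y i < p := fun i h1 h2 => by
    rcases hy i h1 h2 with b | ⟨t, b⟩ | b
    · have := r1 i b.1 h2
      have := e1 (2 * ρ i + 1)
      omega
    · have := e1 (2 * t)
      omega
    · omega
  have h2 : ∀ i j, i < j → j ≤ m → i ≠ i₀ → j ≠ i₀ →
      i + y i ≠ j + y j ∧ y i ≠ y j ∧ y i + y j ≠ p + 1 := fun i j hij hj hi2 hj2 => by
    rcases hy i (by omega) hi2 with b1 | ⟨t, b1⟩ | b1 <;>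
      rcases hy j hj hj2 with b2 | ⟨u, b2⟩ | b2
    · have := r1 i b1.1 hi2
      have := r1 j b2.1 hj2
      have := r2 i j hij b2.1 hi2 hj2
      have := e1 (2 * ρ i + 1)
      have := e1 (2 * ρ j + 1)
      have := e2 (2 * ρ i + 1) (2 * ρ j + 1)
      have := e2 (2 * ρ j + 1) (2 * ρ i + 1)
      omega
    · have := r1 i b1.1 hi2
      have := e1 (2 * ρ i + 1)
      have := e1 (2 * u)
      have := e2 (2 * ρ i + 1) (2 * u)
      have := e2 (2 * u) (2 * ρ i + 1)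
      omega
    · have := r1 i b1.1 hi2
      have := e1 (2 * ρ i + 1)
      omega
    · omega
    · have := e1 (2 * t)
      have := e2 (2 * u) (2 * t)
      omega
    · have := e1 (2 * t)
      omega
    all_goals omega
  refine pth_of_pairs hc (m := m) (i₀ := i₀) (by omega) (by omega) y h1
    (fun i hi1 j hj1 hi2 hj2 hij => ?_) (fun i hi1 j hj1 hi2 hj2 => ?_) (fun i hi1 hi2 => ?_)
    (by simpa using hA 1 le_rfl (by omega) (by omega) (by omega) (by omega) (by omega))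
  · rcases lt_or_gt_of_ne hij with h | h
    · have := h2 i j h hj1 hi2 hj2
      omega
    · have := h2 j i h hi1 hj2 hi2
      omega
  · rcases lt_trichotomy i j with h | rfl | h
    · exact (h2 i j h hj1 hi2 hj2).2.2
    · rcases hy i hj1 hi2 with b | ⟨t, b⟩ | b
      · have := r1 i b.1 hi2
        have := e1 (2 * ρ i + 1)
        omega
      · have := e1 (2 * t)
        omega
      · omega
    · have := h2 j i h hi1.le hj2 hi2
      omega
  · have key : 2 ≤ y i ∧ y i < p ∧ y i ≠ x₀ + 1 ∧ y i + x₀ ≠ p ∧ y i ≠ x₁ + 1 ∧ y i + x₁ ≠ p := by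
      rcases hy i hi1 hi2 with b | ⟨t, b⟩ | b
      · have := r1 i b.1 hi2
        have := e1 (2 * ρ i + 1)
        have := e5 (2 * ρ i + 1)
        omega
      · have := e1 (2 * t)
        have := e5 (2 * t)
        omega
      · omega
    exact ⟨hA _ (by omega) (by omega) (by omega) (by omega) (by omega) (by omega),
      hA _ (by omega) (by omega) (by omega) (by omega) (by omega) (by omega)⟩

end Pool.Agent.Lib.MP_c08332_co
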