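import Pool.Agent.Lib.MP_c08332_co.Big

/-! Nearly symmetric sets and large sets have valid orderings. -/

namespace Pool.Agent.Lib.MP_c08332_co

open Finset

variable {p : ℕ}

theorem val_near [Fact p.Prime] (A B : Finset (ZMod p)) (q : ZMod p)
    (h0 : (0 : ZMod p) ∉ A) (hB : ∀ x ∈ B, x ∈ A ∨ x = 0)
    (hs : ∀ x ∈ B, q - x ∈ B ∧ q - x ≠ x)
    (hc : (A \ B).card ≤ 1 ∨ (q = 0 ∧ (A \ B).card ≤ 2)) : Val A := by
  have hsub : B.erase 0 ⊆ A := fun x hx =>
    (hB x (mem_of_mem_erase hx)).resolve_right (ne_of_mem_erase hx)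
  have hcard : A.card = (A \ B).card + (B.erase 0).card := by
    rw [← card_sdiff_add_card_inter A B]
    congr 2
    ext x
    simp only [mem_inter, mem_erase]
    exact ⟨fun h => ⟨fun e => h0 (e ▸ h.1), h.2⟩, fun h => ⟨(hB x h.2).resolve_right h.1, h.2⟩⟩
  by_cases hq : q = 0
  · subst hq
    have hB0 : (0 : ZMod p) ∉ B := fun h => (hs 0 h).2 (by simp)
    have hneg : ∀ x ∈ B, -x ∈ B := fun x hx => by simpa using (hs x hx).1
    rw [erase_eq_of_notMem hB0] at hsub hcard
    have hemp : Pth (∅ : Finset (ZMod p)) :=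
      ⟨0, by simp, by simp, fun j hj l hl _ => by simp at hj hl; omega⟩
    by_cases hp2 : p = 2
    · refine Pth.val hemp (empty_subset _) ?_
      have h1 := card_le_univ (insert 0 A)
      rw [card_insert_of_notMem h0, ZMod.card] at h1
      rw [card_empty]
      omega
    rcases (A \ B).eq_empty_or_nonempty with he | ⟨u, hu⟩
    · rcases B.eq_empty_or_nonempty with hb | ⟨u, hu⟩
      · exact Pth.val hemp (empty_subset _) (by rw [hcard, he, hb]; simp)
      · have hu0 : u ≠ 0 := fun e => hB0 (e ▸ hu)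
        have huu : -u ≠ u := by simpa using (hs u hu).2
        have huB : u ∉ (B.erase u).erase (-u) := by simp
        refine Pth.val (pth_zero hp2 ((B.erase u).erase (-u))
          (fun h => hB0 (mem_of_mem_erase (mem_of_mem_erase h))) (fun x hx => ?_) hu0 huB)
          (insert_subset (hsub hu) fun x hx => hsub (mem_of_mem_erase (mem_of_mem_erase hx))) ?_
        · simp only [mem_erase] at hx ⊢
          exact ⟨fun e => hx.2.1 (neg_injective e), fun e => hx.1 (by rw [← e, neg_neg]),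
            hneg x hx.2.2⟩
        · have h1 := card_erase_add_one hu
          have h2 := card_erase_add_one (mem_erase.2 ⟨huu, hneg u hu⟩)
          rw [card_insert_of_notMem huB, hcard, he, card_empty]
          omega
    · obtain ⟨hu, huB⟩ := mem_sdiff.1 hu
      refine Pth.val (pth_zero hp2 B hB0 hneg (fun e => h0 (e ▸ hu)) huB)
        (insert_subset hu hsub) ?_
      rw [card_insert_of_notMem huB]
      omega
  · refine Pth.val (pth_ne B hq hs) hsub ?_
    have := hc.resolve_right fun h => hq h.1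
    omega

theorem exists_par [Fact p.Prime] {r : ℕ} (hp : p = 2 * r + 1) {q x : ZMod p} (hq : q ≠ 0)
    (h0 : x ≠ 0) (h1 : q - x ≠ 0) (h2 : q - x ≠ x) : ∃ t : ℕ, 1 ≤ t ∧ t < r ∧ ∀ s < p,
      (q * (s : ZMod p) = x ∨ q * (s : ZMod p) = q - x) ↔ (s = t + 1 ∨ s + t = p) := by
  obtain ⟨v, hv, e⟩ : ∃ v < p, q * (v : ZMod p) = x :=
    ⟨(q⁻¹ * x).val, ZMod.val_lt _, by rw [ZMod.natCast_zmod_val, mul_inv_cancel_left₀ hq]⟩
  have e' : q * ((p + 1 - v : ℕ) : ZMod p) = q - x := by
    rw [Nat.cast_sub (by omega), ← e]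
    simp [mul_sub]
  have v0 : v ≠ 0 := fun h => h0 (by simp [← e, h])
  have v1 : v ≠ 1 := fun h => h1 (by simp [← e, h])
  have v2 : p + 1 - v ≠ v := fun h => h2 (by rw [← e', h, e])
  have key : ∀ s < p, (q * (s : ZMod p) = x ∨ q * (s : ZMod p) = q - x) ↔
      (s = v ∨ s = p + 1 - v) := fun s hs => by
    refine or_congr ⟨fun h => cast_inj hq hs hv (h.trans e.symm), fun h => h ▸ e⟩
      ⟨fun h => cast_inj hq hs (by omega) (h.trans e'.symm), fun h => h ▸ e'⟩
  by_cases h : v ≤ r
  · exact ⟨v - 1, by omega, by omega, fun s hs => (key s hs).trans (by omega)⟩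
  · exact ⟨p - v, by omega, by omega, fun s hs => (key s hs).trans (by omega)⟩

theorem val_big [Fact p.Prime] (A : Finset (ZMod p)) (h0 : (0 : ZMod p) ∉ A)
    (hc : p ≤ A.card + 4) : Val A := by
  by_cases hp2 : p = 2
  · refine val_near A ∅ 0 h0 (by simp) (by simp) (Or.inr ⟨rfl, ?_⟩)
    have h1 := card_le_univ (A \ ∅)
    rw [ZMod.card] at h1
    omega
  obtain ⟨r, hr⟩ := (Fact.out : p.Prime).odd_of_ne_two hp2
  have h2 : (2 : ZMod p) ≠ 0 := fun h => by
    have := (ZMod.natCast_eq_zero_iff 2 p).1 (by exact_mod_cast h)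
    exact hp2 ((Nat.prime_dvd_prime_iff_eq Fact.out Nat.prime_two).1 this)
  let M := (insert 0 A)ᶜ
  have hM : ∀ x, x ∈ M ↔ x ≠ 0 ∧ x ∉ A := fun x => by simp [M]
  have hMc : M.card + A.card + 1 = p := by
    have := card_compl_add_card (insert 0 A)
    rw [card_insert_of_notMem h0, ZMod.card] at this
    exact this
  by_cases h3 : (M.filter fun x => -x ∉ M).card ≤ 2
  · refine val_near A (A.filter fun x => -x ∈ A) 0 h0 (fun x hx => Or.inl (mem_filter.1 hx).1)
      (fun x hx => ?_) (Or.inr ⟨rfl, le_trans (card_le_card_of_injOn (fun x => -x)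
        (fun x hx => ?_) neg_injective.injOn) h3⟩)
    · obtain ⟨h1, h4⟩ := mem_filter.1 hx
      refine ⟨by simp [h1, h4], fun e => h0 ?_⟩
      have : 2 * x = 0 := by linear_combination -e
      exact ((mul_eq_zero.1 this).resolve_left h2) ▸ h1
    · simp only [coe_sdiff, coe_filter, Set.mem_diff, mem_coe, Set.mem_setOf_eq, hM] at hx ⊢
      refine ⟨⟨fun e => h0 (neg_eq_zero.1 e ▸ hx.1), fun e => hx.2 ⟨hx.1, e⟩⟩, fun e => e.2 ?_⟩
      simpa using hx.1
  have hle := card_filter_le M fun x => -x ∉ M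
  have hall := (card_filter_eq_iff (s := M) (p := fun x => -x ∉ M)).1 (by omega)
  obtain ⟨x, y, z, hxy, hxz, hyz, hMe⟩ := card_eq_three.1 (show M.card = 3 by omega)
  have hx := (hM x).1 (by simp [hMe])
  have hy := (hM y).1 (by simp [hMe])
  have hz := (hM z).1 (by simp [hMe])
  have hq : x + y ≠ 0 := fun e => hall x (by simp [hMe]) (by
    rw [neg_eq_of_add_eq_zero_right e]; simp [hMe])
  have hA : ∀ a, a ≠ 0 → a ≠ x → a ≠ y → a ≠ z → a ∈ A := fun a a0 a1 a2 a3 => by
    by_contra h
    have := (hM a).2 ⟨a0, h⟩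
    simp [hMe, a1, a2, a3] at this
  by_cases hzA : x + y - z ∈ A
  · obtain ⟨s, s1, s2, s3⟩ := exists_par hr hq hx.1 (by simpa using hy.1) (by simpa using hxy.symm)
    obtain ⟨t, t1, t2, t3⟩ := exists_par hr hq hz.1 (fun e => h0 (e ▸ hzA))
      (fun e => hz.2 (e ▸ hzA))
    rw [add_sub_cancel_left] at s3
    have hst : s ≠ t := fun e => by
      have hv : (x + y) * (((x + y)⁻¹ * z).val : ZMod p) = z := by
        rw [ZMod.natCast_zmod_val, mul_inv_cancel_left₀ hq]
      have := (s3 _ (ZMod.val_lt _)).2 (e ▸ (t3 _ (ZMod.val_lt _)).1 (Or.inl hv))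
      rw [hv] at this
      exact this.elim (fun h => hxz h.symm) fun h => hyz h.symm
    have hce := card_erase_add_one hzA
    have key : ∀ u : ℕ, 1 ≤ u → u < p → u ≠ s + 1 → u + s ≠ p → u ≠ t + 1 → u + t ≠ p →
        (x + y) * (u : ZMod p) ∈ A.erase (x + y - z) := fun u u0 u1 u2 u3 u4 u5 => by
      have a1 := not_or.1 (mt (s3 u u1).1 (by omega))
      have a2 := not_or.1 (mt (t3 u u1).1 (by omega))
      refine mem_erase.2 ⟨a2.2, hA _ (fun e => ?_) a1.1 a1.2 a2.1⟩
      have := cast_inj hq u1 (t := 0) (by omega) (by simpa using e)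
      omega
    refine Pth.val (A' := A.erase (x + y - z)) ?_ (erase_subset _ _) (by omega)
    rcases lt_or_gt_of_ne hst with h | h
    · exact pth_big hq hr s1 h t2 (by omega) key
    · exact pth_big hq hr t1 h s2 (by omega) fun u u0 u1 u2 u3 u4 u5 => key u u0 u1 u4 u5 u2 u3
  · refine val_near A ((insert 0 A).filter fun b => x + y - b ∈ insert 0 A ∧ x + y - b ≠ b) (x + y)
      h0 (fun b hb => (mem_insert.1 (mem_filter.1 hb).1).symm) (fun b hb => ?_)
      (Or.inl (card_le_one.2 ?_))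
    · obtain ⟨b1, b2, b3⟩ := mem_filter.1 hb
      exact ⟨mem_filter.2 ⟨b2, by rwa [sub_sub_cancel], by rw [sub_sub_cancel]; exact b3.symm⟩, b3⟩
    · have key : ∀ a ∈ A \ (insert 0 A).filter fun b => x + y - b ∈ insert 0 A ∧ x + y - b ≠ b,
          2 * a = x + y := fun a ha => by
        obtain ⟨a1, a2⟩ := mem_sdiff.1 ha
        by_contra hne
        refine a2 (mem_filter.2 ⟨mem_insert_of_mem a1, ?_, fun e => hne (by linear_combination -e)⟩)
        by_cases e0 : x + y - a = 0
        · rw [e0]; exact mem_insert_self _ _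
        refine mem_insert_of_mem (hA _ e0 (fun e => hy.2 ?_) (fun e => hx.2 ?_) fun e => hzA ?_)
        · rwa [show y = a by linear_combination e]
        · rwa [show x = a by linear_combination e]
        · rwa [show x + y - z = a by linear_combination e]
      intro a ha b hb
      exact mul_left_cancel₀ h2 ((key a ha).trans (key b hb).symm)

end Pool.Agent.Lib.MP_c08332_co
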