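import Mathlib

set_option autoImplicit false

namespace Pool.Agent.Lib.MP_c08332_co.Loc

open List

variable {G : Type} [Group G]

/-- no nonempty block of consecutive letters has product one -/
def Free (L : List G) : Prop := ∀ t, t <:+: L → t ≠ [] → t.prod ≠ 1

noncomputable def ht (h : G → ℝ) (l : List G) : ℝ := (l.map h).sum

omit [Group G] in
theorem ht_nil (h : G → ℝ) : ht h [] = 0 := rfl

omit [Group G] in
theorem ht_cons (h : G → ℝ) (a : G) (l : List G) : ht h (a :: l) = h a + ht h l := by simp [ht]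

omit [Group G] in
theorem ht_app (h : G → ℝ) (s l : List G) : ht h (s ++ l) = ht h s + ht h l := by simp [ht]

omit [Group G] in
theorem ht_cat (h : G → ℝ) (a : G) (l : List G) : ht h (l ++ [a]) = ht h l + h a := by simp [ht]

omit [Group G] in
theorem nodup_cat {L : List G} {b : G} (h1 : L.Nodup) (h2 : b ∉ L) : (L ++ [b]).Nodup :=
  Nodup.append h1 (nodup_singleton b) fun _ hx e => h2 (mem_singleton.1 e ▸ hx)

theorem free_cons {L : List G} {b : G} (hL : Free L) (hb : ∀ s, s <+: L → (b :: s).prod ≠ 1) :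
    Free (b :: L) := by
  intro t ht hne
  rcases infix_cons_iff.1 ht with h | h
  · rcases prefix_cons_iff.1 h with h | ⟨s, rfl, hs⟩
    · exact absurd h hne
    · exact hb s hs
  · exact hL t h hne

theorem free_cat {L : List G} {b : G} (hL : Free L) (hb : ∀ s, s <:+ L → (s ++ [b]).prod ≠ 1) :
    Free (L ++ [b]) := by
  intro t ht hne
  rcases infix_concat_iff.1 ht with h | h
  · rcases suffix_concat_iff.1 h with h | ⟨s, rfl, hs⟩
    · exact absurd h hne
    · exact hb s hs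
  · exact hL t h hne

section

variable {A : Finset G} {h : G → ℝ}
  (H : ∀ l : List G, l.Nodup → (∀ a ∈ l, a ∈ A) → l.prod = 1 → ht h l = 0)
include H

theorem ne_one {L t : List G} (h1 : L.Nodup) (h2 : ∀ a ∈ L, a ∈ A) (h3 : t <+ L)
    (h4 : ht h t ≠ 0) : t.prod ≠ 1 :=
  fun e => h4 (H t (h1.sublist h3) (fun a ha => h2 a (h3.subset ha)) e)

theorem runL {L : List G} (hF : Free L) (hp : ∀ s, s <+: L → ht h s ≤ 0) :
    ∀ W : List G, (∀ b ∈ W, h b < 0) → (W ++ L).Nodup → (∀ a ∈ W ++ L, a ∈ A) →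
      Free (W ++ L) ∧ (∀ s, s <+: W ++ L → ht h s ≤ 0) ∧
      ((∀ s, s <+: L → s ≠ [] → ht h s ≠ 0) → ∀ s, s <+: W ++ L → s ≠ [] → ht h s ≠ 0) := by
  intro W
  induction W with
  | nil => exact fun _ _ _ => ⟨hF, hp, id⟩
  | cons b W ih =>
    intro h1 h2 h3
    obtain ⟨a1, a2, -⟩ := ih (fun x hx => h1 x (mem_cons_of_mem _ hx)) (nodup_cons.1 h2).2
      (fun x hx => h3 x (mem_cons_of_mem _ hx))
    have k : ∀ s, s <+: W ++ L → ht h (b :: s) < 0 := fun s hs => by
      have := a2 s hs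
      have := h1 b mem_cons_self
      rw [ht_cons]; linarith
    refine ⟨free_cons a1 fun s hs => ne_one H h2 h3 (hs.sublist.cons_cons b) (k s hs).ne,
      fun s hs => ?_, fun _ s hs hne => ?_⟩
    · rcases prefix_cons_iff.1 hs with rfl | ⟨t, rfl, h4⟩
      · exact le_rfl
      · exact (k t h4).le
    · rcases prefix_cons_iff.1 hs with rfl | ⟨t, rfl, h4⟩
      · exact absurd rfl hne
      · exact (k t h4).ne

theorem runR {L : List G} (hF : Free L) (hp : ∀ s, s <:+ L → 0 ≤ ht h s) :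
    ∀ W : List G, (∀ b ∈ W, 0 < h b) → (L ++ W).Nodup → (∀ a ∈ L ++ W, a ∈ A) →
      Free (L ++ W) ∧ (∀ s, s <:+ L ++ W → 0 ≤ ht h s) ∧
      ((∀ s, s <:+ L → s ≠ [] → ht h s ≠ 0) → ∀ s, s <:+ L ++ W → s ≠ [] → ht h s ≠ 0) := by
  intro W
  induction W using List.reverseRecOn with
  | nil => simpa using fun _ _ => ⟨hF, hp⟩
  | append_singleton W b ih =>
    intro h1 h2 h3
    rw [← append_assoc] at h2 h3 ⊢
    obtain ⟨a1, a2, -⟩ := ih (fun x hx => h1 x (mem_append_left _ hx))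
      (h2.sublist (sublist_append_left _ _)) (fun x hx => h3 x (mem_append_left _ hx))
    have k : ∀ s, s <:+ L ++ W → 0 < ht h (s ++ [b]) := fun s hs => by
      have := a2 s hs
      have := h1 b (by simp)
      rw [ht_cat]; linarith
    refine ⟨free_cat a1 fun s hs => ne_one H h2 h3 (hs.sublist.append_right _) (k s hs).ne',
      fun s hs => ?_, fun _ s hs hne => ?_⟩
    · rcases suffix_concat_iff.1 hs with rfl | ⟨t, rfl, h4⟩
      · exact le_rfl
      · exact (k t h4).le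
    · rcases suffix_concat_iff.1 hs with rfl | ⟨t, rfl, h4⟩
      · exact absurd rfl hne
      · exact (k t h4).ne'

theorem grow [DecidableEq G] : ∀ (n : ℕ) (R : Finset G) (L : List G), R.card = n →
    (∀ a ∈ R, a ∈ A ∧ h a ≠ 0 ∧ a ∉ L) → L.Nodup → (∀ a ∈ L, a ∈ A) → Free L →
    (∀ s, s <:+ L → s ≠ L → 0 ≤ ht h s) → (∀ s, s <+: L → s ≠ L → ht h s ≤ 0) →
    ∃ L' : List G, Free L' ∧ L'.Nodup ∧ (∀ a ∈ L', a ∈ L ∨ a ∈ R) ∧ (∀ a ∈ L, a ∈ L') ∧
      ((∀ a ∈ R, a ∈ L') ∨ ∃ c, (∀ a ∈ R, a ≠ c → a ∈ L') ∧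
        ((∀ s, s <+: L' → s ≠ [] → ht h s ≠ 0) ∨ ∀ s, s <:+ L' → s ≠ [] → ht h s ≠ 0)) := by
  intro n
  induction n using Nat.strong_induction_on with
  | _ n ih =>
  intro R L hn hR hN hA hF hs hp
  have fin : ∀ a ∈ R, ∀ M : List G, (∀ x, x ∈ M ↔ x = a ∨ x ∈ L) → M.Nodup → Free M →
      (∀ s, s <:+ M → s ≠ M → 0 ≤ ht h s) → (∀ s, s <+: M → s ≠ M → ht h s ≤ 0) →
      ∃ L' : List G, Free L' ∧ L'.Nodup ∧ (∀ a ∈ L', a ∈ L ∨ a ∈ R) ∧ (∀ a ∈ L, a ∈ L') ∧
      ((∀ a ∈ R, a ∈ L') ∨ ∃ c, (∀ a ∈ R, a ≠ c → a ∈ L') ∧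
        ((∀ s, s <+: L' → s ≠ [] → ht h s ≠ 0) ∨ ∀ s, s <:+ L' → s ≠ [] → ht h s ≠ 0)) := by
    intro a ha M hM h1 h2 h3 h4
    obtain ⟨L', b1, b2, b3, b4, b5⟩ := ih _ (hn ▸ Finset.card_erase_lt_of_mem ha) (R.erase a) M rfl
      (fun x hx => by
        have := Finset.mem_erase.1 hx
        have := hR x this.2
        rw [hM]; tauto)
      h1 (fun x hx => ((hM x).1 hx).elim (fun e => e ▸ (hR a ha).1) (hA x)) h2 h3 h4
    have haL : a ∈ L' := b4 a ((hM a).2 (Or.inl rfl))
    refine ⟨L', b1, b2, fun x hx => ?_, fun x hx => b4 x ((hM x).2 (Or.inr hx)), ?_⟩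
    · rcases b3 x hx with e | e
      · exact ((hM x).1 e).elim (fun e => Or.inr (e ▸ ha)) Or.inl
      · exact Or.inr (Finset.mem_of_mem_erase e)
    · rcases b5 with e | ⟨c, e, e2⟩
      · refine Or.inl fun x hx => ?_
        by_cases hxa : x = a
        · exact hxa ▸ haL
        · exact e x (Finset.mem_erase.2 ⟨hxa, hx⟩)
      · refine Or.inr ⟨c, fun x hx hc => ?_, e2⟩
        by_cases hxa : x = a
        · exact hxa ▸ haL
        · exact e x (Finset.mem_erase.2 ⟨hxa, hx⟩) hc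
  rcases le_total (ht h L) 0 with hT | hT
  · have hp' : ∀ s, s <+: L → ht h s ≤ 0 := fun s e => by
      by_cases e2 : s = L
      · exact e2 ▸ hT
      · exact hp s e e2
    by_cases hex : ∃ a ∈ R, 0 < h a ∧ (L ++ [a]).prod ≠ 1
    · obtain ⟨a, ha, h0, h1⟩ := hex
      have hN' : (L ++ [a]).Nodup := nodup_cat hN (hR a ha).2.2
      have hA' : ∀ x ∈ L ++ [a], x ∈ A := by
        simpa [or_imp, forall_and] using ⟨hA, (hR a ha).1⟩
      refine fin a ha (L ++ [a]) (by simp [or_comm]) hN' (free_cat hF fun s e => ?_)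
        (fun s e e2 => ?_) (fun s e e2 => hp' s ((prefix_concat_iff.1 e).resolve_left e2))
      · by_cases e2 : s = L
        · exact e2 ▸ h1
        · have := hs s e e2
          exact ne_one H hN' hA' (e.sublist.append_right _) (by rw [ht_cat]; linarith)
      · rcases suffix_concat_iff.1 e with rfl | ⟨t, rfl, e3⟩
        · exact le_rfl
        · have := hs t e3 (fun e4 => e2 (by rw [e4]))
          rw [ht_cat]; linarith
    · push Not at hex
      have hW : ∀ x, x ∈ (R.filter (fun b => h b < 0)).toList ↔ x ∈ R ∧ h x < 0 := by simp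
      have hN' : ((R.filter (fun b => h b < 0)).toList ++ L).Nodup :=
        Nodup.append (Finset.nodup_toList _) hN fun x hx => (hR x ((hW x).1 hx).1).2.2
      obtain ⟨c1, -, c3⟩ := runL H hF hp' _ (fun b hb => ((hW b).1 hb).2) hN'
        (fun x hx => (mem_append.1 hx).elim (fun e => (hR x ((hW x).1 e).1).1) (hA x))
      refine ⟨_, c1, hN', fun x hx => ((mem_append.1 hx).imp_left fun e => ((hW x).1 e).1).symm,
        fun x hx => mem_append_right _ hx, ?_⟩
      by_cases h2 : ∃ c ∈ R, 0 < h c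
      · obtain ⟨c, hc, h0⟩ := h2
        refine Or.inr ⟨c, fun x hx hne => mem_append_left _ ((hW x).2 ⟨hx, ?_⟩),
          Or.inl (c3 fun s e e2 => ?_)⟩
        · refine lt_of_le_of_ne (not_lt.1 fun h3 => hne ?_) (hR x hx).2.1
          have e1 := (hex x hx h3).trans (hex c hc h0).symm
          simpa using e1
        · have e3 := H (L ++ [c]) (nodup_cat hN (hR c hc).2.2)
            (by simpa [or_imp, forall_and] using ⟨hA, (hR c hc).1⟩) (hex c hc h0)
          obtain ⟨u, rfl⟩ := e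
          have := hs u (suffix_append _ _) (fun e4 => e2 (by simpa using e4.symm))
          rw [ht_cat, ht_app] at e3
          linarith
      · push Not at h2
        exact Or.inl fun x hx => mem_append_left _
          ((hW x).2 ⟨hx, lt_of_le_of_ne (h2 x hx) (hR x hx).2.1⟩)
  · have hs' : ∀ s, s <:+ L → 0 ≤ ht h s := fun s e => by
      by_cases e2 : s = L
      · exact e2 ▸ hT
      · exact hs s e e2
    by_cases hex : ∃ a ∈ R, h a < 0 ∧ (a :: L).prod ≠ 1
    · obtain ⟨a, ha, h0, h1⟩ := hex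
      have hN' : (a :: L).Nodup := nodup_cons.2 ⟨(hR a ha).2.2, hN⟩
      have hA' : ∀ x ∈ a :: L, x ∈ A := by simpa using ⟨(hR a ha).1, hA⟩
      refine fin a ha (a :: L) (by simp) hN' (free_cons hF fun s e => ?_)
        (fun s e e2 => hs' s ((suffix_cons_iff.1 e).resolve_left e2)) (fun s e e2 => ?_)
      · by_cases e2 : s = L
        · exact e2 ▸ h1
        · have := hp s e e2
          exact ne_one H hN' hA' (e.sublist.cons_cons _) (by rw [ht_cons]; linarith)
      · rcases prefix_cons_iff.1 e with rfl | ⟨t, rfl, e3⟩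
        · exact le_rfl
        · have := hp t e3 (fun e4 => e2 (by rw [e4]))
          rw [ht_cons]; linarith
    · push Not at hex
      have hW : ∀ x, x ∈ (R.filter (fun b => 0 < h b)).toList ↔ x ∈ R ∧ 0 < h x := by simp
      have hN' : (L ++ (R.filter (fun b => 0 < h b)).toList).Nodup :=
        Nodup.append hN (Finset.nodup_toList _) fun x hx e => (hR x ((hW x).1 e).1).2.2 hx
      obtain ⟨c1, -, c3⟩ := runR H hF hs' _ (fun b hb => ((hW b).1 hb).2) hN'
        (fun x hx => (mem_append.1 hx).elim (hA x) (fun e => (hR x ((hW x).1 e).1).1))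
      refine ⟨_, c1, hN', fun x hx => (mem_append.1 hx).imp_right fun e => ((hW x).1 e).1,
        fun x hx => mem_append_left _ hx, ?_⟩
      by_cases h2 : ∃ c ∈ R, h c < 0
      · obtain ⟨c, hc, h0⟩ := h2
        refine Or.inr ⟨c, fun x hx hne => mem_append_right _ ((hW x).2 ⟨hx, ?_⟩),
          Or.inr (c3 fun s e e2 => ?_)⟩
        · refine lt_of_le_of_ne (not_lt.1 fun h3 => hne ?_) (hR x hx).2.1.symm
          have e1 := (hex x hx h3).trans (hex c hc h0).symm
          simpa using e1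
        · have e3 := H (c :: L) (nodup_cons.2 ⟨(hR c hc).2.2, hN⟩)
            (by simpa using ⟨(hR c hc).1, hA⟩) (hex c hc h0)
          obtain ⟨u, rfl⟩ := e
          have := hp u (prefix_append _ _) (fun e4 => e2 (by simpa using e4.symm))
          rw [ht_cons, ht_app] at e3
          linarith
      · push Not at h2
        exact Or.inl fun x hx => mem_append_right _
          ((hW x).2 ⟨hx, lt_of_le_of_ne (h2 x hx) (hR x hx).2.1.symm⟩)

end

/-- all letters of `A` but at most one can be arranged without a block of product one -/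
def Almost (A : Finset G) : Prop :=
  ∃ (L : List G) (c : G), Free L ∧ L.Nodup ∧ (∀ a ∈ L, a ∈ A) ∧ ∀ a ∈ A, a ≠ c → a ∈ L

theorem extend [DecidableEq G] {A : Finset G} {h : G → ℝ} (h1 : (1 : G) ∉ A)
    (H : ∀ l : List G, l.Nodup → (∀ a ∈ l, a ∈ A) → l.prod = 1 → ht h l = 0)
    (h0 : Almost (A.filter (fun a => h a = 0))) : Almost A := by
  obtain ⟨L, b, a1, a2, a3, a4⟩ := h0
  have z : ∀ s : List G, s <+ L → ht h s = 0 := fun s hs =>
    List.sum_eq_zero fun x hx => by
      obtain ⟨y, hy, rfl⟩ := mem_map.1 hx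
      exact (Finset.mem_filter.1 (a3 y (hs.subset hy))).2
  obtain ⟨M, b1, b2, b3, b4, b5⟩ := grow H _ (A.filter (fun a => h a ≠ 0)) L rfl
    (fun a ha => ⟨(Finset.mem_filter.1 ha).1, (Finset.mem_filter.1 ha).2,
      fun e => (Finset.mem_filter.1 ha).2 (Finset.mem_filter.1 (a3 a e)).2⟩)
    a2 (fun a ha => (Finset.mem_filter.1 (a3 a ha)).1) a1
    (fun s e _ => (z s e.sublist).ge) (fun s e _ => (z s e.sublist).le)
  have hA : ∀ a ∈ M, a ∈ A := fun a ha =>
    (b3 a ha).elim (fun e => (Finset.mem_filter.1 (a3 a e)).1) fun e => (Finset.mem_filter.1 e).1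
  rcases b5 with e | ⟨c, e, e2⟩
  · refine ⟨M, b, b1, b2, hA, fun a ha hb => ?_⟩
    by_cases h2 : h a = 0
    · exact b4 a (a4 a (Finset.mem_filter.2 ⟨ha, h2⟩) hb)
    · exact e a (Finset.mem_filter.2 ⟨ha, h2⟩)
  have cov : ∀ a ∈ A, a ≠ c → (a = b ∧ h a = 0) ∨ a ∈ M := fun a ha hc => by
    by_cases h2 : h a = 0
    · by_cases hb : a = b
      · exact Or.inl ⟨hb, h2⟩
      · exact Or.inr (b4 a (a4 a (Finset.mem_filter.2 ⟨ha, h2⟩) hb))
    · exact Or.inr (e a (Finset.mem_filter.2 ⟨ha, h2⟩) hc)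
  by_cases hb : b ∈ A ∧ h b = 0 ∧ b ∉ M
  · have hb1 : b ≠ 1 := fun e => h1 (e ▸ hb.1)
    rcases e2 with e2 | e2
    · have hN : (b :: M).Nodup := nodup_cons.2 ⟨hb.2.2, b2⟩
      have hA' : ∀ x ∈ b :: M, x ∈ A := by simpa using ⟨hb.1, hA⟩
      refine ⟨b :: M, c, free_cons b1 fun s hs => ?_, hN, hA', fun a ha hc =>
        (cov a ha hc).elim (fun e => e.1 ▸ mem_cons_self) (mem_cons_of_mem _)⟩
      by_cases e3 : s = []
      · simpa [e3] using hb1
      · exact ne_one H hN hA' (hs.sublist.cons_cons _)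
          (by rw [ht_cons, hb.2.1, zero_add]; exact e2 s hs e3)
    · have hN : (M ++ [b]).Nodup := nodup_cat b2 hb.2.2
      have hA' : ∀ x ∈ M ++ [b], x ∈ A := by
        simpa [or_imp, forall_and] using ⟨hA, hb.1⟩
      refine ⟨M ++ [b], c, free_cat b1 fun s hs => ?_, hN, hA', fun a ha hc =>
        (cov a ha hc).elim (fun e => by simp [e.1]) (mem_append_left _)⟩
      by_cases e3 : s = []
      · simpa [e3] using hb1
      · exact ne_one H hN hA' (hs.sublist.append_right _)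
          (by rw [ht_cat, hb.2.1, add_zero]; exact e2 s hs e3)
  · refine ⟨M, c, b1, b2, hA, fun a ha hc => (cov a ha hc).elim (fun e3 => ?_) id⟩
    by_contra e4
    exact hb ⟨e3.1 ▸ ha, e3.1 ▸ e3.2, e3.1 ▸ e4⟩

end Pool.Agent.Lib.MP_c08332_co.Loc
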