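import Mathlib

set_option autoImplicit false

namespace Pool.Agent.Lib.MP_c08332_co.Loc

open Matrix

theorem hadamard_fin (n : ℕ) (H : Matrix (Fin n) (Fin n) ℝ) (h : ∀ i j, H i j ^ 2 = 1) :
    H.det ^ 2 ≤ (n : ℝ) ^ n := by
  have : Fact (Module.finrank ℝ (EuclideanSpace ℝ (Fin n)) = n) := ⟨by simp⟩
  let b := EuclideanSpace.basisFun (Fin n) ℝ
  let v : Fin n → EuclideanSpace ℝ (Fin n) := fun i => WithLp.toLp 2 (H i)
  have h1 := b.toBasis.orientation.abs_volumeForm_apply_le v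
  rw [Orientation.volumeForm_robust' _ b v, Module.Basis.det_apply] at h1
  have h2 : b.toBasis.toMatrix v = Hᵀ := by
    ext i j
    simp [Module.Basis.toMatrix_apply, b, v]
  have h3 : ∀ i, ‖v i‖ ^ 2 = n := fun i => by
    rw [EuclideanSpace.real_norm_sq_eq]
    simp [v, h]
  rw [h2, det_transpose] at h1
  calc H.det ^ 2 = |H.det| ^ 2 := (sq_abs _).symm
    _ ≤ (∏ i, ‖v i‖) ^ 2 := pow_le_pow_left₀ (abs_nonneg _) h1 2
    _ = (n : ℝ) ^ n := by rw [← Finset.prod_pow]; simp [h3]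

theorem hadamard01 {ι : Type} [Fintype ι] [DecidableEq ι] (W : Matrix ι ι ℝ)
    (h : ∀ i j, W i j = 0 ∨ W i j = 1) :
    4 ^ Fintype.card ι * W.det ^ 2 ≤ ((Fintype.card ι + 1 : ℕ) : ℝ) ^ (Fintype.card ι + 1) := by
  let H : Matrix (Unit ⊕ ι) (Unit ⊕ ι) ℝ :=
    fromBlocks 1 (of fun _ _ => 1) (of fun _ _ => 1) (of fun i j => 1 - 2 * W i j)
  have hc : Fintype.card (Unit ⊕ ι) = Fintype.card ι + 1 := by simp [add_comm]
  let e := Fintype.equivFinOfCardEq hc
  have h1 := hadamard_fin _ (H.submatrix e.symm e.symm) fun i j => by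
    rw [submatrix_apply]
    rcases e.symm i with i | i <;> rcases e.symm j with j | j
    · simp [H]
    · simp [H]
    · simp [H]
    · rcases h i j with h | h
      · simp [H, h]
      · simp only [H, fromBlocks_apply₂₂, of_apply, h]
        norm_num
  rw [det_submatrix_equiv_self] at h1
  have h2 : H.det = (-2) ^ Fintype.card ι * W.det := by
    rw [det_fromBlocks_one₁₁, ← det_smul]
    congr 1
    ext i j
    simp [mul_apply]
  rw [h2, mul_pow, ← pow_mul, mul_comm _ 2, pow_mul] at h1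
  norm_num at h1 ⊢
  exact h1

theorem card_le {ι M : Type} [Fintype ι] [DecidableEq ι] [AddCommGroup M] (u : ι → M)
    (hgen : ∀ S : AddSubgroup M, (∀ a, u a ∈ S) → ∀ x, x ∈ S) (W : Matrix ι ι ℤ)
    (hW : W.det ≠ 0) (h0 : ∀ i, ∑ a, W i a • u a = 0) :
    Finite M ∧ Nat.card M ≤ W.det.natAbs := by
  have li := linearIndependent_rows_of_det_ne_zero hW
  have h1 := Submodule.natAbs_det_basis_change (Pi.basisFun ℤ ι) _ (Module.Basis.span li)
  have h2 : ((↑) ∘ Module.Basis.span li : ι → ι → ℤ) = fun i => W i :=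
    funext fun i => congrArg Subtype.val (Module.Basis.span_apply li i)
  rw [h2, Pi.basisFun_det_apply] at h1
  let π : (ι → ℤ) →ₗ[ℤ] M := Fintype.linearCombination ℤ u
  have h3 : Submodule.span ℤ (Set.range fun i => W i) ≤ LinearMap.ker π :=
    Submodule.span_le.2 (by
      rintro _ ⟨i, rfl⟩
      exact h0 i)
  have h4 : Function.Surjective (Submodule.liftQ _ π h3) := fun x => by
    obtain ⟨y, hy⟩ := hgen (LinearMap.range π).toAddSubgroup
      (fun a => ⟨Pi.single a 1, by simp [π]⟩) x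
    exact ⟨Submodule.Quotient.mk y, hy⟩
  have h5 : Finite ((ι → ℤ) ⧸ Submodule.span ℤ (Set.range fun i => W i)) :=
    Nat.finite_of_card_ne_zero (h1 ▸ Int.natAbs_ne_zero.2 hW)
  exact ⟨Finite.of_surjective _ h4, (Nat.card_le_card_of_surjective _ h4).trans_eq h1.symm⟩

end Pool.Agent.Lib.MP_c08332_co.Loc
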