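import Pool.Agent.Lib.MP_c08332_co.LocA
import Pool.Agent.Lib.MP_c08332_co.LocD

set_option autoImplicit false

namespace Pool.Agent.Lib.MP_c08332_co.Loc

open List

variable {G : Type}

theorem small {M : Type} [AddCommGroup M] (B : Finset G)
    (v : G → M) (hgen : ∀ S : AddSubgroup M, (∀ a ∈ B, v a ∈ S) → ∀ x, x ∈ S)
    (hc : Finite M → (B.card + 1) ^ (B.card + 1) < 4 ^ B.card * Nat.card M ^ 2) :
    ∃ e : G → ℝ, (∃ a ∈ B, e a ≠ 0) ∧
      ∀ l : List G, l.Nodup → (∀ a ∈ l, a ∈ B) → (l.map v).sum = 0 → ht e l = 0 := by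
  classical
  let Λ := {l : List G // l.Nodup ∧ (∀ a ∈ l, a ∈ B) ∧ (l.map v).sum = 0}
  let χ : List G → B → ℝ := fun l a => if a.1 ∈ l then 1 else 0
  by_cases hT : Submodule.span ℝ (Set.range fun l : Λ => χ l.1) = ⊤
  · exfalso
    obtain ⟨κ, a, -, a2, a3⟩ := exists_linearIndependent' ℝ fun l : Λ => χ l.1
    let bκ := Module.Basis.mk a3 (by rw [a2, hT])
    let ε : κ ≃ B := bκ.indexEquiv (Pi.basisFun ℝ B)
    let W : Matrix B B ℤ := Matrix.of fun i j => if j.1 ∈ (a (ε.symm i)).1 then 1 else 0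
    have hW : (W.map (Int.cast : ℤ → ℝ)).row = ((fun l : Λ => χ l.1) ∘ a) ∘ ε.symm := by
      ext i j
      simp [W, χ, Matrix.row]
    have h1 : IsUnit (W.map (Int.cast : ℤ → ℝ)) :=
      Matrix.linearIndependent_rows_iff_isUnit.1 (hW ▸ a3.comp _ ε.symm.injective)
    have h2 : ((W.det : ℤ) : ℝ) = (W.map (Int.cast : ℤ → ℝ)).det := Int.cast_det W
    have h3 : W.det ≠ 0 := fun h => by
      rw [Matrix.isUnit_iff_isUnit_det, ← h2, h] at h1
      simp at h1
    obtain ⟨h4, h5⟩ := card_le (fun a : B => v a) (fun S hS => hgen S fun a ha => hS ⟨a, ha⟩) W h3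
      fun i => by
        obtain ⟨l1, l2, l3⟩ := (a (ε.symm i)).2
        have e1 : B.filter (fun j => j ∈ (a (ε.symm i)).1) = (a (ε.symm i)).1.toFinset := by
          ext j
          simp only [Finset.mem_filter, List.mem_toFinset]
          exact ⟨fun h => h.2, fun h => ⟨l2 j h, h⟩⟩
        rw [← l3, ← List.sum_toFinset v l1, ← e1, Finset.sum_filter,
          ← Finset.sum_coe_sort B fun j => if j ∈ (a (ε.symm i)).1 then v j else 0]
        refine Finset.sum_congr rfl fun j _ => ?_
        simp [W]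
    have h6 := hadamard01 (W.map (Int.cast : ℤ → ℝ)) fun i j => by
      simp only [W, Matrix.map_apply, Matrix.of_apply]
      split_ifs <;> simp
    rw [← h2, Fintype.card_coe] at h6
    have h7 : 4 ^ B.card * W.det.natAbs ^ 2 ≤ (B.card + 1) ^ (B.card + 1) := by
      have : ((W.det.natAbs : ℕ) : ℝ) ^ 2 = ((W.det : ℤ) : ℝ) ^ 2 := by
        rw [Nat.cast_natAbs, Int.cast_abs, sq_abs]
      rw [← this] at h6
      exact_mod_cast h6
    have h8 : 4 ^ B.card * Nat.card M ^ 2 ≤ 4 ^ B.card * W.det.natAbs ^ 2 := by gcongr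
    exact absurd (hc h4) (not_lt.2 (h8.trans h7))
  · obtain ⟨f, hf, f0⟩ := Submodule.exists_dual_map_eq_bot_of_lt_top (lt_top_iff_ne_top.2 hT)
      inferInstance
    refine ⟨fun g => if h : g ∈ B then f (Pi.single ⟨g, h⟩ 1) else 0, ?_, fun l l1 l2 l3 => ?_⟩
    · by_contra h
      push Not at h
      refine hf ((Pi.basisFun ℝ B).ext fun a => ?_)
      have := h a.1 a.2
      rw [dif_pos a.2] at this
      simpa using this
    · have hs : ∀ l : List G, l.Nodup → (∀ a ∈ l, a ∈ B) →
          ht (fun g => if h : g ∈ B then f (Pi.single ⟨g, h⟩ 1) else 0) l = f (χ l) := fun l => by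
        induction l with
        | nil =>
          intro _ _
          have : χ [] = 0 := funext fun a => by simp [χ]
          rw [ht_nil, this, map_zero]
        | cons a l ihl =>
          intro h1 h2
          have ha := h2 a mem_cons_self
          have : χ (a :: l) = Pi.single ⟨a, ha⟩ 1 + χ l := funext fun j => by
            by_cases e : j = ⟨a, ha⟩
            · simp [χ, e, (nodup_cons.1 h1).1]
            · have : j.1 ≠ a := fun h => e (Subtype.ext h)
              simp [χ, e, this]
          rw [ht_cons, ihl (nodup_cons.1 h1).2 fun x hx => h2 x (mem_cons_of_mem _ hx), this,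
            map_add, dif_pos ha]
      rw [hs l l1 l2]
      exact (Submodule.eq_bot_iff _).1 f0 _ (Submodule.mem_map_of_mem
        (Submodule.subset_span ⟨⟨l, l1, l2, l3⟩, rfl⟩))

variable [Group G]

theorem height (B : Finset G)
    (hc : Finite (Abelianization (Subgroup.closure (B : Set G))) → (B.card + 1) ^ (B.card + 1) <
      4 ^ B.card * Nat.card (Abelianization (Subgroup.closure (B : Set G))) ^ 2) :
    ∃ e : G → ℝ, (∃ a ∈ B, e a ≠ 0) ∧
      ∀ l : List G, l.Nodup → (∀ a ∈ l, a ∈ B) → l.prod = 1 → ht e l = 0 := by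
  classical
  set K := Subgroup.closure (B : Set G) with hK
  let v : G → Additive (Abelianization K) := fun x =>
    if hx : x ∈ K then Additive.ofMul (Abelianization.of (⟨x, hx⟩ : K)) else 0
  have v1 : v 1 = 0 := by
    simp only [v, dif_pos K.one_mem]
    rfl
  have vm : ∀ a ∈ K, ∀ b ∈ K, v (a * b) = v a + v b := fun a ha b hb => by
    simp only [v, dif_pos ha, dif_pos hb, dif_pos (K.mul_mem ha hb)]
    rw [← ofMul_mul, ← map_mul]
    rfl
  have hin : ∀ a ∈ B, a ∈ K := fun a ha => Subgroup.subset_closure (Finset.mem_coe.2 ha)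
  have hgen : ∀ S : AddSubgroup (Additive (Abelianization K)), (∀ a ∈ B, v a ∈ S) →
      ∀ x, x ∈ S := fun S hS x => by
    obtain ⟨⟨g, hg⟩, e⟩ : ∃ y : K, Abelianization.of y = x.toMul := Quot.exists_rep x.toMul
    have h2 : v g ∈ S := by
      refine Subgroup.closure_induction (p := fun g _ => v g ∈ S) (fun a ha => hS a ha)
        (v1 ▸ S.zero_mem) (fun a b ha hb i1 i2 => ?_) (fun a ha i1 => ?_) hg
      · rw [vm a ha b hb]
        exact S.add_mem i1 i2
      · have := vm a ha a⁻¹ (K.inv_mem ha)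
        rw [mul_inv_cancel, v1] at this
        rw [eq_neg_of_add_eq_zero_right this.symm]
        exact S.neg_mem i1
    simpa only [v, dif_pos hg, e, ofMul_toMul] using h2
  have hs : ∀ l : List G, (∀ a ∈ l, a ∈ B) → (l.map v).sum = v l.prod := fun l => by
    induction l with
    | nil => exact fun _ => by simp [v1]
    | cons a l ihl =>
      intro h
      rw [map_cons, sum_cons, prod_cons, ihl fun x hx => h x (mem_cons_of_mem _ hx),
        vm a (hin a (h a mem_cons_self)) _
          (K.list_prod_mem fun x hx => hin x (h x (mem_cons_of_mem _ hx)))]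
  obtain ⟨e, e1, e2⟩ := small B v hgen hc
  exact ⟨e, e1, fun l l1 l2 l3 => e2 l l1 l2 (by rw [hs l l2, l3, v1])⟩

theorem almost : ∀ (n : ℕ) (A : Finset G), A.card = n →
    (∀ B ⊆ A, B.Nonempty → Finite (Abelianization (Subgroup.closure (B : Set G))) →
      (B.card + 1) ^ (B.card + 1) <
        4 ^ B.card * Nat.card (Abelianization (Subgroup.closure (B : Set G))) ^ 2) → Almost A := by
  classical
  intro n
  induction n using Nat.strong_induction_on with
  | _ n ih =>
  intro A hn hA
  rcases A.eq_empty_or_nonempty with rfl | hne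
  · exact ⟨[], 1, fun t ht hne => absurd (infix_nil.1 ht) hne, nodup_nil, by simp, by simp⟩
  have h1 : (1 : G) ∉ A := fun h => by
    obtain ⟨e, ⟨a, ha, e1⟩, e2⟩ := height {1}
      (hA _ (Finset.singleton_subset_iff.2 h) (Finset.singleton_nonempty _))
    have := e2 [1] (nodup_singleton _) (by simp) (by simp)
    rw [ht_cons, ht_nil, add_zero] at this
    exact e1 (Finset.mem_singleton.1 ha ▸ this)
  obtain ⟨e, ⟨a, ha, e1⟩, e2⟩ := height A (hA A subset_rfl hne)
  refine extend (h := e) h1 e2 (ih _ ?_ _ rfl fun B hB => hA B (hB.trans (Finset.filter_subset _ _)))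
  rw [← hn]
  exact Finset.card_lt_card (Finset.filter_ssubset.2 ⟨a, ha, e1⟩)

end Pool.Agent.Lib.MP_c08332_co.Loc
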