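import Mathlib

/-! Zigzag orderings of nearly symmetric subsets of `ZMod p`. -/

namespace Pool.Agent.Lib.MP_c08332_co

open Finset

variable {p : ℕ}

/-- an ordering of `A` all of whose partial sums, the empty one included, are distinct -/
def Pth (A : Finset (ZMod p)) : Prop :=
  ∃ g : ℕ → ZMod p, Set.InjOn g (Set.Iio A.card) ∧ (∀ i < A.card, g i ∈ A) ∧
    Set.InjOn (fun j => ∑ i ∈ range j, g i) (Set.Iic A.card)

/-- a valid ordering -/
def Val (A : Finset (ZMod p)) : Prop :=
  ∃ f : Fin A.card → ZMod p, Function.Injective f ∧ (∀ i, f i ∈ A) ∧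
    Function.Injective
      (fun k : Fin A.card => ((Finset.univ.filter (fun i : Fin A.card => i ≤ k)).sum f))

theorem val_of_nat {A : Finset (ZMod p)} (g : ℕ → ZMod p) (h1 : Set.InjOn g (Set.Iio A.card))
    (h2 : ∀ i < A.card, g i ∈ A)
    (h3 : Set.InjOn (fun j => ∑ i ∈ range (j + 1), g i) (Set.Iio A.card)) : Val A := by
  refine ⟨fun i => g i, fun i j h => Fin.ext (h1 i.2 j.2 h), fun i => h2 i i.2, fun k l h => ?_⟩
  have key : ∀ k : Fin A.card, ∑ i ∈ univ.filter (fun i : Fin A.card => i ≤ k), g i =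
      ∑ i ∈ range (k + 1), g i := fun k => by
    refine Finset.sum_bij (fun i _ => (i : ℕ)) (fun i hi => ?_) (fun i _ j _ h => Fin.ext h)
      (fun j hj => ?_) (fun _ _ => rfl)
    · have := (mem_filter.1 hi).2
      exact mem_range.2 (Nat.lt_succ_of_le this)
    · have := mem_range.1 hj
      exact ⟨⟨j, by omega⟩, mem_filter.2 ⟨mem_univ _, by simp [Fin.le_def]; omega⟩, rfl⟩
  simp only [key] at h
  exact Fin.ext (h3 k.2 l.2 h)

theorem Pth.val {A A' : Finset (ZMod p)} (h : Pth A') (hs : A' ⊆ A)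
    (hc : A.card ≤ A'.card + 1) : Val A := by
  classical
  obtain ⟨g, h1, h2, h3⟩ := h
  rcases (card_le_card hs).eq_or_lt with he | hl
  · obtain rfl : A' = A := eq_of_subset_of_card_le hs he.ge
    exact val_of_nat g h1 h2 fun j hj l hl h => by
      have := h3 (show j + 1 ≤ _ from hj) (show l + 1 ≤ _ from hl) h
      omega
  · obtain ⟨a, ha, ha'⟩ := exists_mem_notMem_of_card_lt_card hl
    have hA : A.card = A'.card + 1 := by omega
    refine val_of_nat (fun i => Nat.casesOn i a g) ?_ ?_ ?_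
    · rintro (_ | i) hi (_ | j) hj h
      · rfl
      · exact absurd ((show a = g j from h) ▸ h2 j (by simp at hj; omega)) ha'
      · exact absurd ((show g i = a from h) ▸ h2 i (by simp at hi; omega)) ha'
      · rw [h1 (show i < _ by simp at hi; omega) (show j < _ by simp at hj; omega) h]
    · rintro (_ | i) hi
      · exact ha
      · exact hs (h2 i (by omega))
    · intro j hj l hl h
      simp only [sum_range_succ', add_left_inj] at h
      exact h3 (show j ≤ _ by simp at hj; omega) (show l ≤ _ by simp at hl; omega) h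

theorem alt_sum {v : ℕ → ℤ} {n : ℕ} (hd : ∀ i, i + 1 < n → v (i + 1) < v i)
    (hp : ∀ i < n, 0 < v i) (d : ℕ) : ∀ j, j + d < n →
      0 < ∑ i ∈ range (d + 1), (-1) ^ i * v (j + i) ∧
        ∑ i ∈ range (d + 1), (-1) ^ i * v (j + i) ≤ v j := by
  induction d with
  | zero => intro j hj; simpa using hp j hj
  | succ d ih =>
    intro j hj
    obtain ⟨h1, h2⟩ := ih (j + 1) (by omega)
    have h3 := hd j (by omega)
    have e : ∑ i ∈ range (d + 1 + 1), (-1) ^ i * v (j + i) =
        v j - ∑ i ∈ range (d + 1), (-1) ^ i * v (j + 1 + i) := by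
      rw [sum_range_succ', eq_sub_iff_add_eq, add_right_comm, ← sum_add_distrib,
        sum_eq_zero fun i _ => by rw [show j + (i + 1) = j + 1 + i by ring]; ring]
      simp
    rw [e]
    constructor <;> linarith

theorem pth_of_zig [Fact p.Prime] {A : Finset (ZMod p)} {c : ZMod p} (hc : c ≠ 0) {v : ℕ → ℤ}
    (hd : ∀ i, i + 1 < A.card → v (i + 1) < v i) (hp : ∀ i < A.card, 0 < v i)
    (hl : ∀ i < A.card, v i < p)
    (h1 : Set.InjOn (fun i => c * (-1) ^ i * (v i : ZMod p)) (Set.Iio A.card))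
    (h2 : ∀ i < A.card, c * (-1) ^ i * (v i : ZMod p) ∈ A) : Pth A := by
  refine ⟨_, h1, h2, ?_⟩
  have key : ∀ j l, j < l → l ≤ A.card → ∑ i ∈ range j, c * (-1) ^ i * (v i : ZMod p) ≠
      ∑ i ∈ range l, c * (-1) ^ i * (v i : ZMod p) := by
    intro j l hjl hl' h
    obtain ⟨d, rfl⟩ : ∃ d, l = j + (d + 1) := ⟨l - j - 1, by omega⟩
    obtain ⟨a1, a2⟩ := alt_sum hd hp d j (by omega)
    have a3 := hl j (by omega)
    rw [sum_range_add, left_eq_add] at h
    have h' : c * (-1) ^ j * ((∑ i ∈ range (d + 1), (-1) ^ i * v (j + i) : ℤ) : ZMod p) = 0 := by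
      rw [← h]
      push_cast
      rw [mul_sum]
      exact sum_congr rfl fun i _ => by ring
    rcases mul_eq_zero.1 h' with h' | h'
    · exact mul_ne_zero hc (pow_ne_zero _ (neg_ne_zero.2 one_ne_zero)) h'
    · have := Int.le_of_dvd a1 ((ZMod.intCast_zmod_eq_zero_iff_dvd _ _).1 h')
      omega
  intro j hj l hl h
  rcases lt_trichotomy j l with hjl | hjl | hjl
  · exact absurd h (key j l hjl hl)
  · exact hjl
  · exact absurd h.symm (key l j hjl hj)

theorem exists_sorted (R : Finset ℤ) (c : ℤ) (hs : ∀ x ∈ R, c - x ∈ R) : ∃ b : ℕ → ℤ,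
    (∀ j l, j < l → l < R.card → b j < b l) ∧ (∀ j < R.card, b j ∈ R) ∧
    (∀ x ∈ R, ∃ j < R.card, b j = x) ∧ ∀ j l, j + l + 1 = R.card → b j + b l = c := by
  let e := R.orderEmbOfFin rfl
  have hu : (fun j : Fin R.card => c - e j.rev) = e :=
    orderEmbOfFin_unique rfl (fun j => hs _ (orderEmbOfFin_mem _ _ _)) fun j l h => by
      have := e.strictMono (Fin.rev_lt_rev.2 h)
      omega
  refine ⟨fun j => if h : j < R.card then e ⟨j, h⟩ else 0, fun j l h hl => ?_, fun j h => ?_,
    fun x hx => ?_, fun j l h => ?_⟩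
  · simp only [dif_pos hl, dif_pos (h.trans hl)]
    exact e.strictMono h
  · simp only [dif_pos h]
    exact orderEmbOfFin_mem _ _ _
  · have : x ∈ Set.range e := by rw [range_orderEmbOfFin]; exact hx
    obtain ⟨j, rfl⟩ := this
    exact ⟨j, j.2, by simp⟩
  · have hj : j < R.card := by omega
    have hl : l < R.card := by omega
    simp only [dif_pos hj, dif_pos hl]
    have := congrFun hu ⟨j, hj⟩
    rw [show Fin.rev ⟨j, hj⟩ = ⟨l, hl⟩ from Fin.ext (by simp; omega)] at this
    omega

/-- sorted representatives in `[1, p]` of a set `c⁻¹ B` symmetric about `s / 2` -/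
theorem exists_rep [Fact p.Prime] (B : Finset (ZMod p)) {c : ZMod p} (hc : c ≠ 0) (s : ℤ)
    (hs1 : s = p ∨ s = p + 1) (h0 : s = p → 0 ∉ B) (hs : ∀ x ∈ B, c * s - x ∈ B) : ∃ b : ℕ → ℤ,
    (∀ j l, j < l → l < B.card → b j < b l) ∧
    (∀ j < B.card, c * (b j : ZMod p) ∈ B ∧ 1 ≤ b j ∧ b j ≤ p) ∧
    (∀ x ∈ B, ∃ j < B.card, c * (b j : ZMod p) = x) ∧
    ∀ j l, j + l + 1 = B.card → b j + b l = s := by
  classical
  let R : Finset ℤ := (Icc (1 : ℤ) p).filter fun x => c * (x : ZMod p) ∈ B
  have hp : 0 < p := (Fact.out : p.Prime).pos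
  have hsur : ∀ y ∈ B, ∃ x ∈ R, c * (x : ZMod p) = y := fun y hy => by
    have e : c * ((((c⁻¹ * y - 1).val : ℤ) + 1 : ℤ) : ZMod p) = y := by
      push_cast
      rw [ZMod.natCast_zmod_val, sub_add_cancel, mul_inv_cancel_left₀ hc]
    have := ZMod.val_lt (c⁻¹ * y - 1)
    exact ⟨_, mem_filter.2 ⟨mem_Icc.2 ⟨by omega, by omega⟩, by rwa [e]⟩, e⟩
  have hR : R.card = B.card := by
    refine card_bij (fun x _ => c * (x : ZMod p)) (fun x hx => (mem_filter.1 hx).2)
      (fun x hx y hy h => ?_) (fun y hy => ?_)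
    · have hx := mem_Icc.1 (mem_filter.1 hx).1
      have hy := mem_Icc.1 (mem_filter.1 hy).1
      have := (ZMod.intCast_eq_intCast_iff_dvd_sub _ _ _).1 (mul_left_cancel₀ hc h)
      have := Int.eq_zero_of_abs_lt_dvd this (abs_lt.2 ⟨by omega, by omega⟩)
      omega
    · obtain ⟨x, hx, e⟩ := hsur y hy
      exact ⟨x, hx, e⟩
  obtain ⟨b, b1, b2, b3, b4⟩ := exists_sorted R s fun x hx => by
    obtain ⟨h1, h2⟩ := mem_filter.1 hx
    have h1 := mem_Icc.1 h1
    have h3 : s = p → x ≠ p := fun h e => h0 h (by simpa [e] using h2)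
    refine mem_filter.2 ⟨mem_Icc.2 ⟨by omega, by omega⟩, ?_⟩
    push_cast
    rw [mul_sub]
    exact hs _ h2
  rw [hR] at b1 b2 b3 b4
  refine ⟨b, b1, fun j hj => ?_, fun y hy => ?_, b4⟩
  · obtain ⟨h1, h2⟩ := mem_filter.1 (b2 j hj)
    exact ⟨h2, mem_Icc.1 h1⟩
  · obtain ⟨x, hx, e⟩ := hsur y hy
    obtain ⟨j, hj, rfl⟩ := b3 x hx
    exact ⟨j, hj, e⟩

theorem rep_inj [Fact p.Prime] {n : ℕ} {c : ZMod p} (hc : c ≠ 0) {b : ℕ → ℤ}
    (b1 : ∀ j l, j < l → l < n → b j < b l) (b2 : ∀ j < n, 1 ≤ b j ∧ b j ≤ p) {j l : ℕ}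
    (hj : j < n) (hl : l < n) (h : c * (b j : ZMod p) = c * (b l : ZMod p)) : j = l := by
  have h1 := b2 j hj
  have h2 := b2 l hl
  have := (ZMod.intCast_eq_intCast_iff_dvd_sub _ _ _).1 (mul_left_cancel₀ hc h)
  have := Int.eq_zero_of_abs_lt_dvd this (abs_lt.2 ⟨by omega, by omega⟩)
  rcases lt_trichotomy j l with h | h | h
  · have := b1 j l h hl; omega
  · exact h
  · have := b1 l j h hj; omega

/-- symmetric about `q / 2 ≠ 0`, centre not in the set -/
theorem pth_ne [Fact p.Prime] (B : Finset (ZMod p)) {q : ZMod p} (hq : q ≠ 0)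
    (hs : ∀ x ∈ B, q - x ∈ B ∧ q - x ≠ x) : Pth (B.erase 0) := by
  classical
  obtain ⟨b, b1, b2, b3, b4⟩ := exists_rep B hq (p + 1) (Or.inr rfl) (fun h => by omega)
    fun x hx => by simpa using (hs x hx).1
  set n := B.card with hn
  have hsum : ∀ j l, j + l + 1 = n → q * (b j : ZMod p) = q - q * (b l : ZMod p) := fun j l h => by
    have : (b j : ZMod p) + b l = 1 := by
      rw [← Int.cast_add, b4 j l h]; simp
    linear_combination q * this
  have hev : n % 2 = 0 := by
    by_contra h
    exact (hs _ (b2 (n / 2) (by omega)).1).2 (hsum (n / 2) (n / 2) (by omega)).symm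
  let v : ℕ → ℤ := fun i => if i % 2 = 0 then b (n - 1 - i) else b (n - i) - 1
  let π : ℕ → ℕ := fun i => if i % 2 = 0 then n - 1 - i else i - 1
  have hg : ∀ i < n, q * (-1) ^ i * (v i : ZMod p) = q * b (π i) := fun i hi => by
    rcases Nat.even_or_odd i with h | h
    · simp [v, π, Nat.even_iff.1 h, h.neg_one_pow]
    · have h' : ¬ i % 2 = 0 := by have := Nat.odd_iff.1 h; omega
      simp only [v, π, if_neg h', h.neg_one_pow]
      rw [hsum (i - 1) (n - i) (by omega)]
      push_cast
      ring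
  have hπ : ∀ i < n, π i < n := fun i hi => by simp only [π]; split_ifs <;> omega
  have hinj : ∀ i < n, ∀ j < n, q * (b (π i) : ZMod p) = q * b (π j) → i = j := by
    intro i hi j hj h
    have := rep_inj hq b1 (fun j hj => (b2 j hj).2) (hπ i hi) (hπ j hj) h
    simp only [π] at this
    split_ifs at this <;> omega
  have hd : ∀ i, i + 1 < n → v (i + 1) < v i := fun i hi => by
    simp only [v]
    split_ifs with h1 h2 h2
    · omega
    · have h3 := b1 (n - 1 - (i + 1)) (n - 1 - i) (by omega) (by omega)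
      have h4 := b1 (n - 1 - i) (n - i) (by omega) (by omega)
      omega
    · rw [show n - (i + 1) = n - 1 - i by omega]
      omega
    · omega
  have hp : ∀ i < n, 0 < v i := fun i hi => by
    simp only [v]
    split_ifs with h1
    · have := (b2 (n - 1 - i) (by omega)).2
      omega
    · have h3 := (b2 0 (by omega)).2
      have h4 := b1 0 (n - i) (by omega) (by omega)
      omega
  by_cases h0 : (0 : ZMod p) ∈ B
  · have hc : (B.erase 0).card + 1 = n := card_erase_add_one h0
    have hz : q * (b (π 0) : ZMod p) = 0 := by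
      obtain ⟨j, hj, e⟩ := b3 0 h0
      have h1 := (b2 j hj).2
      have h2 := Int.le_of_dvd (by omega)
        ((ZMod.intCast_zmod_eq_zero_iff_dvd _ _).1 ((mul_eq_zero.1 e).resolve_left hq))
      have h3 : j = n - 1 := by
        by_contra h
        have h4 := b1 j (n - 1) (by omega) (by omega)
        have h5 := (b2 (n - 1) (by omega)).2
        omega
      simpa [π, ← h3] using e
    have hg' : ∀ i, i + 1 < n →
        -q * (-1) ^ i * (v (i + 1) : ZMod p) = q * b (π (i + 1)) := fun i hi => by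
      rw [← hg _ hi]; ring
    refine pth_of_zig (neg_ne_zero.2 hq) (v := fun i => v (i + 1)) (fun i hi => hd _ (by omega))
      (fun i hi => hp _ (by omega)) (fun i hi => ?_) (fun i hi j hj h => ?_) (fun i hi => ?_)
    · simp only [v]
      split_ifs with h1
      · have h3 := b1 (n - 1 - (i + 1)) (n - 1) (by omega) (by omega)
        have h4 := (b2 (n - 1) (by omega)).2
        omega
      · have h4 := (b2 (n - (i + 1)) (by omega)).2
        omega
    · have hi : i + 1 < n := by simp only [Set.mem_Iio] at hi; omega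
      have hj : j + 1 < n := by simp only [Set.mem_Iio] at hj; omega
      simp only [hg' i hi, hg' j hj] at h
      have := hinj _ hi _ hj h
      omega
    · have hi : i + 1 < n := by omega
      rw [hg' i hi]
      refine mem_erase.2 ⟨fun h => ?_, (b2 _ (hπ _ hi)).1⟩
      have := hinj _ hi 0 (by omega) (h.trans hz.symm)
      omega
  · rw [erase_eq_of_notMem h0]
    refine pth_of_zig hq hd hp (fun i hi => ?_) (fun i hi j hj h => ?_) (fun i hi => ?_)
    · simp only [v]
      split_ifs with h1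
      · obtain ⟨h3, -, h4⟩ := b2 (n - 1 - i) (by omega)
        refine lt_of_le_of_ne h4 fun e => h0 ?_
        simpa [e] using h3
      · have h4 := (b2 (n - i) (by omega)).2
        omega
    · simp only [hg i hi, hg j hj] at h
      exact hinj _ hi _ hj h
    · rw [hg i hi]
      exact (b2 _ (hπ _ hi)).1

/-- symmetric about `0`, with one more element -/
theorem pth_zero [Fact p.Prime] (hp2 : p ≠ 2) (B : Finset (ZMod p)) (h0 : (0 : ZMod p) ∉ B)
    (hs : ∀ x ∈ B, -x ∈ B) {u : ZMod p} (hu : u ≠ 0) (huB : u ∉ B) : Pth (insert u B) := by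
  classical
  obtain ⟨r, hr⟩ := (Fact.out : p.Prime).odd_of_ne_two hp2
  have hp3 := (Fact.out : p.Prime).two_le
  have hr0 : ((r : ℤ) : ZMod p) ≠ 0 := fun h => by
    have := Int.le_of_dvd (by omega) ((ZMod.intCast_zmod_eq_zero_iff_dvd _ _).1 h)
    omega
  obtain ⟨c, hc, hcu⟩ : ∃ c : ZMod p, c ≠ 0 ∧ c * ((r : ℤ) : ZMod p) = u :=
    ⟨u / ((r : ℤ) : ZMod p), div_ne_zero hu hr0, div_mul_cancel₀ _ hr0⟩
  obtain ⟨b, b1, b2, -, b4⟩ := exists_rep B hc p (Or.inl rfl) (fun _ => h0)
    fun x hx => by simpa using hs x hx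
  have hcard : (insert u B).card = B.card + 1 := card_insert_of_notMem huB
  set n := B.card with hn
  have hsum : ∀ j l, j + l + 1 = n → c * (b j : ZMod p) = -(c * (b l : ZMod p)) := fun j l h => by
    have : (b j : ZMod p) + b l = 0 := by
      rw [← Int.cast_add, b4 j l h]; simp
    linear_combination c * this
  have hev : n % 2 = 0 := by
    by_contra h
    have := b4 (n / 2) (n / 2) (by omega)
    omega
  obtain ⟨m, hm⟩ : ∃ m, n = 2 * m := ⟨n / 2, by omega⟩
  have hne : ∀ j < n, b j ≠ r := fun j hj e => huB (by rw [← hcu, ← e]; exact (b2 j hj).1)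
  have hlo : ∀ j < m, b j < r := fun j hj => by
    have h1 := b4 j (n - 1 - j) (by omega)
    have h2 := b1 j (n - 1 - j) (by omega) (by omega)
    have h3 := hne j (by omega)
    omega
  have hhi : ∀ j, m ≤ j → j < n → r < b j ∧ b j < p := fun j h1 h2 => by
    have h3 := b4 j (n - 1 - j) (by omega)
    have h4 := hlo (n - 1 - j) (by omega)
    have h5 := (b2 (n - 1 - j) (by omega)).2
    omega
  let v : ℕ → ℤ := fun i => if i < m then b (n - 1 - i) else if i = m then r else b (n - i)
  let π : ℕ → ℕ := fun i => if i < m then (if (m + i) % 2 = 0 then n - 1 - i else i)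
    else (if (m + i) % 2 = 0 then n - i else i - 1)
  have hg : ∀ i ≤ n, i ≠ m → c * (-1) ^ m * (-1) ^ i * (v i : ZMod p) = c * b (π i) := by
    intro i hi him
    rw [mul_assoc c, ← pow_add]
    rcases Nat.even_or_odd (m + i) with h | h
    · simp only [v, π, Nat.even_iff.1 h, h.neg_one_pow, if_true, if_neg him]
      split_ifs <;> ring
    · have h' : ¬ (m + i) % 2 = 0 := by have := Nat.odd_iff.1 h; omega
      simp only [v, π, if_neg h', h.neg_one_pow, if_neg him]
      split_ifs with h1
      · rw [hsum i (n - 1 - i) (by omega)]; ring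
      · rw [hsum (i - 1) (n - i) (by omega)]; ring
  have hgm : c * (-1) ^ m * (-1) ^ m * (v m : ZMod p) = u := by
    rw [mul_assoc c, ← pow_add, (show Even (m + m) from ⟨m, rfl⟩).neg_one_pow, mul_one, ← hcu]
    simp [v]
  have hπ : ∀ i ≤ n, i ≠ m → π i < n := fun i hi him => by simp only [π]; split_ifs <;> omega
  refine pth_of_zig (c := c * (-1) ^ m) (v := v)
    (mul_ne_zero hc (pow_ne_zero _ (neg_ne_zero.2 one_ne_zero))) (fun i hi => ?_) (fun i hi => ?_)
    (fun i hi => ?_) (fun i hi j hj h => ?_) (fun i hi => ?_)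
  · simp only [v]
    split_ifs with h1 h2 h3 h4 h5 h6 h7 h8
    · exact b1 _ _ (by omega) (by omega)
    · omega
    · omega
    · exact (hhi _ (by omega) (by omega)).1
    · omega
    · omega
    · omega
    · exact hlo _ (by omega)
    · exact b1 _ _ (by omega) (by omega)
  · simp only [v]
    split_ifs with h1 h2
    · have := (b2 (n - 1 - i) (by omega)).2
      omega
    · omega
    · have := (b2 (n - i) (by omega)).2
      omega
  · simp only [v]
    split_ifs with h1 h2
    · exact (hhi _ (by omega) (by omega)).2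
    · omega
    · have := hlo (n - i) (by omega)
      omega
  · have hi : i ≤ n := by simp only [Set.mem_Iio] at hi; omega
    have hj : j ≤ n := by simp only [Set.mem_Iio] at hj; omega
    by_cases him : i = m <;> by_cases hjm : j = m
    · omega
    · simp only [him, hgm, hg j hj hjm] at h
      exact absurd (h ▸ (b2 _ (hπ j hj hjm)).1) huB
    · simp only [hjm, hgm, hg i hi him] at h
      exact absurd (h ▸ (b2 _ (hπ i hi him)).1) huB
    · simp only [hg i hi him, hg j hj hjm] at h
      have := rep_inj hc b1 (fun j hj => (b2 j hj).2) (hπ i hi him) (hπ j hj hjm) h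
      simp only [π] at this
      split_ifs at this <;> omega
  · by_cases him : i = m
    · rw [him, hgm]
      exact mem_insert_self _ _
    · rw [hg i (by omega) him]
      exact mem_insert_of_mem (b2 _ (hπ i (by omega) him)).1

end Pool.Agent.Lib.MP_c08332_co
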